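import Mathlib

namespace Pool.Agent.Results.MP_4d22c1_co.Exists

/-- A placed 4-dimensional box: a real corner and natural side lengths. -/
structure Tile where
  corner : Fin 4 → ℝ
  side : Fin 4 → ℕ

/-- The closed axis-parallel box occupied by a tile. -/
def Tile.set (t : Tile) : Set (Fin 4 → ℝ) :=
  Set.pi Set.univ (fun i => Set.Icc (t.corner i) (t.corner i + (t.side i : ℝ)))

/-- The side lengths sorted in nondecreasing order. -/
def sorted (s : Fin 4 → ℕ) : List ℕ := (List.ofFn s).insertionSort (· ≤ ·)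

/-- Incomparability of two boxes, via their sorted side lengths. -/
def Incomparable (s t : Fin 4 → ℕ) : Prop :=
  ∃ i j : Fin 4, (sorted s).getD i 0 < (sorted t).getD i 0 ∧
    (sorted s).getD j 0 > (sorted t).getD j 0

/-- `T` is a tiling of the box with side lengths `x` by `n` tiles (at least two). -/
def IsTiling (x : Fin 4 → ℕ) (n : ℕ) (T : Fin n → Tile) : Prop :=
  2 ≤ n ∧ (∀ a i, 0 < (T a).side i) ∧
    (∀ a b, a ≠ b → Disjoint (interior (T a).set) (interior (T b).set)) ∧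
    (⋃ a, (T a).set) = (Tile.mk (fun _ => 0) x).set

/-- Corners of the 9 tiles. -/
def pos : Fin 9 → Fin 4 → ℕ :=
  ![![0,0,0,0],
    ![0,0,6,0],
    ![0,0,0,3],
    ![0,0,2,3],
    ![0,2,0,0],
    ![0,2,2,3],
    ![2,0,0,0],
    ![2,0,6,0],
    ![2,0,2,3]]

/-- Side lengths of the 9 tiles. -/
def len : Fin 9 → Fin 4 → ℕ :=
  ![![2,2,6,3],
    ![2,2,1,8],
    ![3,3,2,5],
    ![2,2,4,5],
    ![2,1,7,3],
    ![2,1,5,5],
    ![1,3,6,3],
    ![1,3,1,8],
    ![1,3,4,5]]

/-- The 9 placed tiles. -/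
def tiles (a : Fin 9) : Tile := ⟨fun i => (pos a i : ℝ), len a⟩

lemma sep : ∀ a b : Fin 9, a ≠ b →
    ∃ i, pos a i + len a i ≤ pos b i ∨ pos b i + len b i ≤ pos a i := by decide

lemma inside : ∀ (a : Fin 9) (i : Fin 4), pos a i + len a i ≤ ![3, 3, 7, 8] i := by decide

lemma cover : ∀ (c0 : Fin 3) (c1 : Fin 3) (c2 : Fin 7) (c3 : Fin 8), ∃ a : Fin 9,
    ∀ i : Fin 4, pos a i ≤ ![c0.val, c1.val, c2.val, c3.val] i ∧
      ![c0.val, c1.val, c2.val, c3.val] i + 1 ≤ pos a i + len a i := by decide +kernel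

lemma cell (m : ℕ) (hm : 0 < m) (y : ℝ) (h0 : 0 ≤ y) (h1 : y ≤ m) :
    ∃ c : Fin m, ((c : ℕ) : ℝ) ≤ y ∧ y ≤ (c : ℕ) + 1 := by
  by_cases h : ⌊y⌋₊ < m
  · exact ⟨⟨⌊y⌋₊, h⟩, Nat.floor_le h0, (Nat.lt_floor_add_one y).le⟩
  · have h2 : m ≤ ⌊y⌋₊ := not_lt.mp h
    have h3 : (m : ℝ) ≤ y := le_trans (by exact_mod_cast h2) (Nat.floor_le h0)
    refine ⟨⟨m - 1, by omega⟩, ?_, ?_⟩
    · have : ((m - 1 : ℕ) : ℝ) ≤ m := by exact_mod_cast Nat.sub_le m 1
      simpa using le_trans this h3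
    · have : ((m - 1 : ℕ) : ℝ) + 1 = m := by
        have : (m - 1) + 1 = m := by omega
        exact_mod_cast this
      simp only
      linarith

lemma incomp : ∀ a b : Fin 9, a ≠ b → Incomparable (len a) (len b) := by
  unfold Incomparable sorted
  decide +kernel

theorem result :
    ∃ (n : ℕ) (T : Fin n → Tile), IsTiling ![3, 3, 7, 8] n T ∧
      (∀ a b, a ≠ b → Incomparable (T a).side (T b).side) ∧
      ¬ ∃ k : Fin 4, ∀ a, (T a).side k = ![3, 3, 7, 8] k := by
  refine ⟨9, tiles, ⟨by norm_num, ?_, ?_, ?_⟩, incomp, ?_⟩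
  · show ∀ (a : Fin 9) (i : Fin 4), 0 < len a i
    decide
  · intro a b hab
    obtain ⟨i, hi⟩ := sep a b hab
    unfold Tile.set
    rw [interior_pi_set Set.finite_univ, interior_pi_set Set.finite_univ, Set.disjoint_left]
    intro y hy hz
    have h1 := hy i (Set.mem_univ i)
    have h2 := hz i (Set.mem_univ i)
    simp only [interior_Icc, Set.mem_Ioo, tiles] at h1 h2
    rcases hi with hi | hi
    · have : ((pos a i : ℝ)) + (len a i : ℝ) ≤ pos b i := by exact_mod_cast hi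
      linarith [h1.2, h2.1]
    · have : ((pos b i : ℝ)) + (len b i : ℝ) ≤ pos a i := by exact_mod_cast hi
      linarith [h1.1, h2.2]
  · ext y
    simp only [Set.mem_iUnion, Tile.set, Set.mem_pi, Set.mem_univ, true_implies, Set.mem_Icc,
      tiles, zero_add]
    constructor
    · rintro ⟨a, ha⟩ i
      have h := inside a i
      have h' : ((pos a i : ℝ)) + (len a i : ℝ) ≤ ((![3, 3, 7, 8] i : ℕ) : ℝ) := by
        exact_mod_cast h
      have h0 : (0 : ℝ) ≤ (pos a i : ℝ) := Nat.cast_nonneg _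
      exact ⟨le_trans h0 (ha i).1, le_trans (ha i).2 h'⟩
    · intro hy
      obtain ⟨c0, h0⟩ := cell 3 (by norm_num) (y 0) (hy 0).1 (by simpa using (hy 0).2)
      obtain ⟨c1, h1⟩ := cell 3 (by norm_num) (y 1) (hy 1).1 (by simpa using (hy 1).2)
      obtain ⟨c2, h2⟩ := cell 7 (by norm_num) (y 2) (hy 2).1 (by simpa using (hy 2).2)
      obtain ⟨c3, h3⟩ := cell 8 (by norm_num) (y 3) (hy 3).1 (by simpa using (hy 3).2)
      obtain ⟨a, ha⟩ := cover c0 c1 c2 c3
      refine ⟨a, fun i => ?_⟩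
      have hc : (((![c0.val, c1.val, c2.val, c3.val] i : ℕ) : ℝ)) ≤ y i ∧
          y i ≤ ((![c0.val, c1.val, c2.val, c3.val] i : ℕ) : ℝ) + 1 := by
        fin_cases i
        · simpa using h0
        · simpa using h1
        · simpa using h2
        · simpa using h3
      have e1 : ((pos a i : ℝ)) ≤ ((![c0.val, c1.val, c2.val, c3.val] i : ℕ) : ℝ) := by
        exact_mod_cast (ha i).1
      have e2 : ((![c0.val, c1.val, c2.val, c3.val] i : ℕ) : ℝ) + 1 ≤
          (pos a i : ℝ) + (len a i : ℝ) := by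
        exact_mod_cast (ha i).2
      exact ⟨le_trans e1 hc.1, le_trans hc.2 e2⟩
  · show ¬ ∃ k : Fin 4, ∀ a : Fin 9, len a k = ![3, 3, 7, 8] k
    decide

end Pool.Agent.Results.MP_4d22c1_co.Exists
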